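import Pool.Agent.H23.LB.Targets
import Pool.Agent.H28.RC.WP
import Pool.Agent.H66.HK.FD

/-!
# Rotation of the completed L-functions
-/

set_option autoImplicit false

open NumberField NumberField.InfinitePlace NumberField.Units
  NumberField.Units.dirichletUnitTheorem MeasureTheory Set Filter Complex
open scoped nonZeroDivisors ENNReal

namespace Pool.Agent.H33.GLA

open Pool.Agent.H25.HK Pool.Agent.H28.RC Pool.Agent.H23.LB

section

variable {K : Type} [Field K] [NumberField K]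

open scoped Classical in
theorem ec_cont (ν : InfinitePlace K → ℝ) : Continuous (ec K ν) := by
  unfold ec pr
  fun_prop

open scoped Classical in
/-- the integral over the fundamental domain -/
theorem int_EZ (hAZ : T_AZ) (f : Ideal (𝓞 K)) (hf : f ≠ ⊥) (S : Finset (RP K)) (M : FI K)
    (hM : M ≠ 0) (r : K) (hr : r ∈ M) (φ : ℝ) (hφ : |φ| < Real.pi / 2)
    (ν : InfinitePlace K → ℝ) (s : ℂ) :
    ∫ z in Fd K, ec K ν z * EZ K S f M r φ z s =
      (∫ z in Fd K, ec K ν z * E0 K S f M r φ z s) -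
        (∫ z in Fd K, ec K ν z) * (d0 K S f M r / s) -
        (∫ z in Fd K, ec K ν z) * (rn K S φ * d1 K S / (1 - s)) := by
  have hE := (hAZ K S f M r φ hf hM hr hφ).2.1 s
  have i1 : IntegrableOn (fun z => ec K ν z * E0 K S f M r φ z s) (Fd K) :=
    cont_int Pool.Agent.H66.HK.fd _ ((ec_cont ν).mul hE)
  have i2 : IntegrableOn (fun z => ec K ν z * (d0 K S f M r / s)) (Fd K) :=
    cont_int Pool.Agent.H66.HK.fd _ ((ec_cont ν).mul continuous_const)
  have i3 : IntegrableOn (fun z => ec K ν z * (rn K S φ * d1 K S / (1 - s))) (Fd K) :=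
    cont_int Pool.Agent.H66.HK.fd _ ((ec_cont ν).mul continuous_const)
  have i12 : IntegrableOn (fun z => ec K ν z * E0 K S f M r φ z s -
      ec K ν z * (d0 K S f M r / s)) (Fd K) := i1.sub i2
  rw [← integral_mul_const, ← integral_mul_const, ← integral_sub i1 i2, ← integral_sub i12 i3]
  refine integral_congr_ae (Eventually.of_forall fun z => ?_)
  simp only [EZ]
  ring

open scoped Classical in
/-- the completed L-function is holomorphic outside `0` and `1` -/
theorem lam_diff (hAZ : T_AZ) {f : Ideal (𝓞 K)} (hf : f ≠ ⊥) (D : Sys K f) (χ : HC K f) (φ : ℝ)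
    (hφ : |φ| < Real.pi / 2) (s : ℂ) (h0 : s ≠ 0) (h1 : s ≠ 1) :
    DifferentiableAt ℂ (Lam D χ φ) s := by
  unfold Lam
  have h1' : (1 : ℂ) - s ≠ 0 := sub_ne_zero.2 (Ne.symm h1)
  refine DifferentiableAt.fun_sum fun c _ => DifferentiableAt.fun_sum fun r hr => ?_
  refine DifferentiableAt.const_mul ?_ _
  have hM : D.M c ≠ 0 := D.reps.1 c
  have hrM : r ∈ D.M c := (D.rep c).1 r hr
  have e : (fun s : ℂ => ∫ z in Fd K, ec K χ.ν z * EZ K χ.S f (D.M c) r φ z s) = fun s =>
      (∫ z in Fd K, ec K χ.ν z * E0 K χ.S f (D.M c) r φ z s) -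
        (∫ z in Fd K, ec K χ.ν z) * (d0 K χ.S f (D.M c) r / s) -
        (∫ z in Fd K, ec K χ.ν z) * (rn K χ.S φ * d1 K χ.S / (1 - s)) :=
    funext fun s => int_EZ hAZ f hf χ.S (D.M c) hM r hrM φ hφ χ.ν s
  rw [e]
  have hd := ((hAZ K χ.S f (D.M c) r φ hf hM hrM hφ).2.2.1 χ.ν) s
  refine (hd.sub ?_).sub ?_
  · exact ((differentiableAt_const _).div differentiableAt_id h0).const_mul _
  · exact ((differentiableAt_const _).div
      ((differentiableAt_const _).sub differentiableAt_id) h1').const_mul _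

end

/-- target PH of the board -/
theorem pf_PH (hUZ : T_UZ) (hAZ : T_AZ) : T_PH := by
  classical
  intro K _ _ f hf D χ φ hφ s h0 h1
  have hπ : |(0 : ℝ)| < Real.pi / 2 := by
    rw [abs_zero]
    exact half_pos Real.pi_pos
  have hc : IsPreconnected ({0, 1}ᶜ : Set ℂ) := by
    refine (Set.Countable.isConnected_compl_of_one_lt_rank ?_ ?_).isPreconnected
    · rw [Complex.rank_real_complex]
      exact_mod_cast one_lt_two
    · exact (Set.toFinite _).countable
  have ho : IsOpen ({0, 1}ᶜ : Set ℂ) := (Set.toFinite _).isClosed.isOpen_compl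
  have hmem : ∀ w : ℂ, w ∈ ({0, 1}ᶜ : Set ℂ) ↔ w ≠ 0 ∧ w ≠ 1 := by
    intro w
    simp
  have a1 : AnalyticOnNhd ℂ (Lam D χ φ) ({0, 1}ᶜ) := by
    refine DifferentiableOn.analyticOnNhd (fun w hw => ?_) ho
    obtain ⟨w0, w1⟩ := (hmem w).1 hw
    exact (lam_diff hAZ hf D χ φ hφ w w0 w1).differentiableWithinAt
  have a2 : AnalyticOnNhd ℂ (fun s => cexp (-(φ * (Module.finrank ℚ K * s) / 2) * I) *
      Lam D χ 0 s) ({0, 1}ᶜ) := by
    refine DifferentiableOn.analyticOnNhd (fun w hw => ?_) ho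
    obtain ⟨w0, w1⟩ := (hmem w).1 hw
    have d1 := lam_diff hAZ hf D χ 0 hπ w w0 w1
    have d2 : DifferentiableAt ℂ (fun s : ℂ => cexp (-(φ * (Module.finrank ℚ K * s) / 2) * I)) w := by
      fun_prop
    exact (d2.mul d1).differentiableWithinAt
  have h2 : (2 : ℂ) ∈ ({0, 1}ᶜ : Set ℂ) := by
    rw [hmem]
    constructor <;> norm_num
  have hev : Lam D χ φ =ᶠ[nhds 2] fun s => cexp (-(φ * (Module.finrank ℚ K * s) / 2) * I) *
      Lam D χ 0 s := by
    have : ∀ᶠ w : ℂ in nhds 2, 1 < w.re :=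
      (isOpen_lt continuous_const Complex.continuous_re).mem_nhds (by norm_num)
    filter_upwards [this] with w hw
    rw [hUZ K f hf D χ φ hφ w hw, hUZ K f hf D χ 0 hπ w hw]
    have e : cexp (-(((0 : ℝ) : ℂ) * (Module.finrank ℚ K * w) / 2) * I) = 1 := by
      rw [Complex.ofReal_zero, zero_mul, zero_div, neg_zero, zero_mul, Complex.exp_zero]
    rw [e]
    ring
  exact a1.eqOn_of_preconnected_of_eventuallyEq a2 hc h2 hev ((hmem s).2 ⟨h0, h1⟩)

end Pool.Agent.H33.GLA
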